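import Pool.Agent.W206.YP.Stm

/-! Part YN of project YP. -/

set_option autoImplicit false

namespace Pool.Agent.W35.YP.YN

open UpperHalfPlane H294ZP Pool.Agent.W206.CT Pool.Agent.W206.YP

section Maps

variable {ι E : Type} [Fintype ι] [Fintype E] [DecidableEq ι] [DecidableEq E]
  {D : ℕ} {r : E → ℕ}

theorem xb_map {R S : Type} [CommRing R] [CommRing S] (φ : R →+* S) (w lam : ι → R) (μ : R)
    (b : Bs ι) : φ (xb w lam μ b) = xb (fun i => φ (w i)) (fun i => φ (lam i)) (φ μ) b := by
  rcases b with _ | (i | i) <;> simp [xb]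

theorem mo_map {R S : Type} [CommRing R] [CommRing S] (φ : R →+* S) (w lam : ι → R) (μ : R)
    (e : Ex ι D) : φ (mo w lam μ e) = mo (fun i => φ (w i)) (fun i => φ (lam i)) (φ μ) e := by
  simp only [mo, map_mul, map_prod, map_pow, xb_map]

theorem tm_map {R S : Type} [CommRing R] [CommRing S] (φ : R →+* S)
    (ε : ∀ l, Fin (r l) → ℤ) (M : ∀ l, Fin (r l) → Ex ι D) (w lam : ι → R) (μ : R)
    (l : E) (j : Fin (r l)) : φ (tm ε M w lam μ l j) =
      tm ε M (fun i => φ (w i)) (fun i => φ (lam i)) (φ μ) l j := by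
  simp only [tm, map_mul, map_intCast, mo_map]

theorem val_map {R S : Type} [CommRing R] [CommRing S] (φ : R →+* S)
    (ε : ∀ l, Fin (r l) → ℤ) (M : ∀ l, Fin (r l) → Ex ι D) (w lam : ι → R) (μ : R) (nu : E → R)
    (v : Nd ι E D r) : φ (val ε M w lam μ nu v) =
      val ε M (fun i => φ (w i)) (fun i => φ (lam i)) (φ μ) (fun l => φ (nu l)) v := by
  rcases v with i | ((i | i) | (e | ⟨l, j⟩))
  · rfl
  · rfl
  · simp [val]
  · simp only [val, mo_map]
  · simp only [val, map_add]
    congr 1
    have := psum_map φ.toAddMonoidHom (tm ε M w lam μ l) j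
    simp only [RingHom.toAddMonoidHom_eq_coe, AddMonoidHom.coe_coe] at this
    rw [this]
    congr 1
    funext i
    exact tm_map φ ε M w lam μ l i

end Maps

section Tr

theorem trans_of_notMem {K V : Type} [Field K] (p : MvPolynomial V K)
    (hp : p ∉ Set.range (MvPolynomial.C : K → MvPolynomial V K)) : Transcendental K p := by
  intro h
  apply hp
  by_cases h0 : p = 0
  · exact ⟨0, by rw [h0, map_zero]⟩
  · have h1 : IsUnit p := IsIntegral.isUnit h.isIntegral h0
    rw [MvPolynomial.isUnit_iff_eq_C_of_isReduced] at h1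
    obtain ⟨c, -, hc⟩ := h1
    exact ⟨c, hc.symm⟩

end Tr

section Roots

open Polynomial in
theorem rm_prod {J : Type} [Fintype J] (f : J → ℂ[X]) (hf : ∀ b, f b ≠ 0) (m : J → ℕ) (x : ℂ) :
    rootMultiplicity x (∏ b, f b ^ m b) = ∑ b, m b * rootMultiplicity x (f b) := by
  classical
  have h0 : (∏ b, f b ^ m b : ℂ[X]) ≠ 0 :=
    Finset.prod_ne_zero_iff.2 (fun j _ => pow_ne_zero _ (hf j))
  rw [← count_roots, roots_prod _ _ h0, Multiset.count_bind]
  simp only [roots_pow, Multiset.count_nsmul, count_roots]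
  rfl

open Polynomial in
theorem mo_rm {ι : Type} [Fintype ι] {D : ℕ} (w lam : ι → ℂ[X]) (μ : ℂ[X]) (x : ℂ) (b1 : Bs ι)
    (hμ : μ ≠ 0) (hne : ∀ b, xb w lam μ b ≠ 0)
    (h1 : rootMultiplicity x (xb w lam μ b1) = 1)
    (h2 : ∀ b, b ≠ b1 → rootMultiplicity x (xb w lam μ b) = 0) (e : Ex ι D) :
    rootMultiplicity x (mo w lam μ e) = rootMultiplicity x μ + (e.1 b1 : ℕ) := by
  classical
  unfold mo
  rw [rootMultiplicity_mul (mul_ne_zero hμ
    (Finset.prod_ne_zero_iff.2 fun b _ => pow_ne_zero _ (hne b))), rm_prod _ hne]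
  congr 1
  rw [Finset.sum_eq_single b1]
  · rw [h1, mul_one]
  · intro b _ hb
    rw [h2 b hb, mul_zero]
  · intro h
    exact absurd (Finset.mem_univ _) h

open Polynomial in
theorem rmX (y w : ℂ) : rootMultiplicity y (C w + X : ℂ[X]) = if y = -w then 1 else 0 := by
  have : (C w + X : ℂ[X]) = X - C (-w) := by rw [C_neg]; ring
  rw [this, rootMultiplicity_X_sub_C]

open Polynomial in
theorem rmX0 (y : ℂ) : rootMultiplicity y (X : ℂ[X]) = if y = 0 then 1 else 0 := by
  have : (X : ℂ[X]) = X - C 0 := by rw [C_0, sub_zero]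
  rw [this, rootMultiplicity_X_sub_C]

open Polynomial in
theorem mo_inj {ι : Type} [Fintype ι] [DecidableEq ι] {D : ℕ} (w : ι → ℂ) (hw : ∀ i, w i ≠ 0)
    (e e' : Ex ι D)
    (h : ∀ (lam : ι → ℂ[X]) (μ : ℂ[X]), mo (fun i => C (w i)) lam μ e =
      mo (fun i => C (w i)) lam μ e') : e = e' := by
  have h2w : ∀ i, w i + w i ≠ 0 := by
    intro i hi
    apply hw i
    have : 2 * w i = 0 := by rw [two_mul]; exact hi
    simpa using this
  apply Subtype.ext
  funext b
  apply Fin.ext
  rcases b with _ | (i | i)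
  · have h1 := congrArg (rootMultiplicity 0) (h (fun i => C (w i)) X)
    have hne : ∀ b, xb (fun i => C (w i)) (fun i => C (w i)) (X : ℂ[X]) b ≠ 0 := by
      rintro (_ | (i | i))
      · exact X_ne_zero
      · exact C_ne_zero.2 (hw i)
      · show (C (w i) + C (w i) : ℂ[X]) ≠ 0
        rw [← C_add]
        exact C_ne_zero.2 (h2w i)
    have hx1 : rootMultiplicity 0 (xb (fun i => C (w i)) (fun i => C (w i)) (X : ℂ[X]) none)
        = 1 := by
      show rootMultiplicity 0 (X : ℂ[X]) = 1
      rw [rmX0, if_pos rfl]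
    have hx2 : ∀ b, b ≠ none →
        rootMultiplicity 0 (xb (fun i => C (w i)) (fun i => C (w i)) (X : ℂ[X]) b) = 0 := by
      rintro (_ | (i | i)) hb
      · exact absurd rfl hb
      · exact rootMultiplicity_C _ _
      · show rootMultiplicity 0 (C (w i) + C (w i) : ℂ[X]) = 0
        rw [← C_add]
        exact rootMultiplicity_C _ _
    rw [mo_rm _ _ _ _ none X_ne_zero hne hx1 hx2, mo_rm _ _ _ _ none X_ne_zero hne hx1 hx2] at h1
    omega
  · have h1 := congrArg (rootMultiplicity 0)
      (h (fun j => if j = i then X else C (w j)) 1)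
    have hne : ∀ b, xb (fun i => C (w i)) (fun j => if j = i then X else C (w j)) (1 : ℂ[X]) b
        ≠ 0 := by
      rintro (_ | (j | j))
      · exact one_ne_zero
      · show (if j = i then X else C (w j) : ℂ[X]) ≠ 0
        split_ifs
        · exact X_ne_zero
        · exact C_ne_zero.2 (hw j)
      · show (C (w j) + (if j = i then X else C (w j)) : ℂ[X]) ≠ 0
        split_ifs
        · rw [add_comm]
          exact X_add_C_ne_zero _
        · rw [← C_add]
          exact C_ne_zero.2 (h2w j)
    have hx1 : rootMultiplicity 0 (xb (fun i => C (w i)) (fun j => if j = i then X else C (w j))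
        (1 : ℂ[X]) (some (Sum.inl i))) = 1 := by
      show rootMultiplicity 0 (if i = i then X else C (w i) : ℂ[X]) = 1
      rw [if_pos rfl, rmX0, if_pos rfl]
    have hx2 : ∀ b, b ≠ some (Sum.inl i) → rootMultiplicity 0 (xb (fun i => C (w i))
        (fun j => if j = i then X else C (w j)) (1 : ℂ[X]) b) = 0 := by
      rintro (_ | (j | j)) hb
      · show rootMultiplicity _ (1 : ℂ[X]) = 0
        rw [← C_1]
        exact rootMultiplicity_C _ _
      · have hj : j ≠ i := fun hj => hb (by rw [hj])
        show rootMultiplicity 0 (if j = i then X else C (w j) : ℂ[X]) = 0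
        rw [if_neg hj]
        exact rootMultiplicity_C _ _
      · show rootMultiplicity 0 (C (w j) + (if j = i then X else C (w j)) : ℂ[X]) = 0
        split_ifs
        · rw [rmX, if_neg]
          intro h0
          exact hw j (by rw [← neg_neg (w j), ← h0, neg_zero])
        · rw [← C_add]
          exact rootMultiplicity_C _ _
    rw [mo_rm _ _ _ _ (some (Sum.inl i)) one_ne_zero hne hx1 hx2,
      mo_rm _ _ _ _ (some (Sum.inl i)) one_ne_zero hne hx1 hx2] at h1
    omega
  · have h1 := congrArg (rootMultiplicity (-w i))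
      (h (fun j => if j = i then X else C (w j)) 1)
    have hne : ∀ b, xb (fun i => C (w i)) (fun j => if j = i then X else C (w j)) (1 : ℂ[X]) b
        ≠ 0 := by
      rintro (_ | (j | j))
      · exact one_ne_zero
      · show (if j = i then X else C (w j) : ℂ[X]) ≠ 0
        split_ifs
        · exact X_ne_zero
        · exact C_ne_zero.2 (hw j)
      · show (C (w j) + (if j = i then X else C (w j)) : ℂ[X]) ≠ 0
        split_ifs
        · rw [add_comm]
          exact X_add_C_ne_zero _
        · rw [← C_add]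
          exact C_ne_zero.2 (h2w j)
    have hx1 : rootMultiplicity (-w i) (xb (fun i => C (w i))
        (fun j => if j = i then X else C (w j)) (1 : ℂ[X]) (some (Sum.inr i))) = 1 := by
      show rootMultiplicity (-w i) (C (w i) + (if i = i then X else C (w i)) : ℂ[X]) = 1
      rw [if_pos rfl, rmX, if_pos rfl]
    have hx2 : ∀ b, b ≠ some (Sum.inr i) → rootMultiplicity (-w i) (xb (fun i => C (w i))
        (fun j => if j = i then X else C (w j)) (1 : ℂ[X]) b) = 0 := by
      rintro (_ | (j | j)) hb
      · show rootMultiplicity _ (1 : ℂ[X]) = 0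
        rw [← C_1]
        exact rootMultiplicity_C _ _
      · show rootMultiplicity (-w i) (if j = i then X else C (w j) : ℂ[X]) = 0
        split_ifs
        · rw [rmX0, if_neg]
          intro h0
          exact hw i (neg_eq_zero.1 h0)
        · exact rootMultiplicity_C _ _
      · have hj : j ≠ i := fun hj => hb (by rw [hj])
        show rootMultiplicity (-w i) (C (w j) + (if j = i then X else C (w j)) : ℂ[X]) = 0
        rw [if_neg hj, ← C_add]
        exact rootMultiplicity_C _ _
    rw [mo_rm _ _ _ _ (some (Sum.inr i)) one_ne_zero hne hx1 hx2,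
      mo_rm _ _ _ _ (some (Sum.inr i)) one_ne_zero hne hx1 hx2] at h1
    omega

end Roots

section Dist

variable {ι E : Type} [Fintype ι] [Fintype E] [DecidableEq ι] [DecidableEq E]
  {D : ℕ} {r : E → ℕ}

theorem mo_zero {R : Type} [CommRing R] (w lam : ι → R) (e : Ex ι D) : mo w lam 0 e = 0 := by
  simp [mo]

theorem mo_ne {R : Type} [CommRing R] [IsDomain R] (w lam : ι → R) (μ : R) (e : Ex ι D)
    (hμ : μ ≠ 0) (h : ∀ b, xb w lam μ b ≠ 0) : mo w lam μ e ≠ 0 :=
  mul_ne_zero hμ (Finset.prod_ne_zero_iff.2 fun b _ => pow_ne_zero _ (h b))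

/-- non constant nodes -/
theorem nonconst (ε : ∀ l, Fin (r l) → ℤ) (M : ∀ l, Fin (r l) → Ex ι D) (w : ι → ℂ)
    (hw : ∀ i, w i ≠ 0) (v : Nd ι E D r) (hv : ∀ i, v ≠ Sum.inl i) (c : ℂ)
    (h : ∀ (lam : ι → ℂ) (μ : ℂ) (nu : E → ℂ), val ε M w lam μ nu v = c) : False := by
  rcases v with i | ((i | i) | (e | ⟨l, j⟩))
  · exact hv i rfl
  · have h0 := h (fun _ => 0) 0 (fun _ => 0)
    have h1 := h (fun _ => 1) 0 (fun _ => 0)
    simp only [val] at h0 h1
    rw [← h0] at h1
    exact one_ne_zero h1
  · have h0 := h (fun _ => 0) 0 (fun _ => 0)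
    have h1 := h (fun _ => 1) 0 (fun _ => 0)
    simp only [val] at h0 h1
    rw [← h0, add_zero] at h1
    exact one_ne_zero (add_eq_left.1 h1)
  · have h0 := h (fun _ => 0) 0 (fun _ => 0)
    have h1 := h w 1 (fun _ => 0)
    simp only [val, mo_zero] at h0 h1
    rw [← h0] at h1
    refine mo_ne w w 1 e one_ne_zero ?_ h1
    rintro (_ | (i | i))
    · exact one_ne_zero
    · exact hw i
    · show w i + w i ≠ 0
      rw [← two_mul]
      exact mul_ne_zero two_ne_zero (hw i)
  · have h0 := h (fun _ => 0) 0 (fun _ => 0)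
    have h1 := h (fun _ => 0) 0 (fun _ => 1)
    simp only [val] at h0 h1
    rw [← h0, zero_add] at h1
    exact one_ne_zero (add_eq_right.1 h1)

/-- distinct nodes -/
theorem distinct (ε : ∀ l, Fin (r l) → ℤ) (M : ∀ l, Fin (r l) → Ex ι D) (w : ι → ℂ)
    (hw : ∀ i, w i ≠ 0) (hinj : Function.Injective w) (v v' : Nd ι E D r) (hvv : v ≠ v')
    (hv : ∀ i, v ≠ Sum.inl i) (hv' : ∀ i, v' ≠ Sum.inl i)
    (hmo : ∀ e e' : Ex ι D, e ≠ e' → v = mn e → v' = mn e' → False)
    (hps : ∀ l j j', j ≠ j' → v = ps l j → v' = ps l j' → False)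
    (h : ∀ (lam : ι → ℂ) (μ : ℂ) (nu : E → ℂ),
      val ε M w lam μ nu v = val ε M w lam μ nu v') : False := by
  rcases v with i | ((i | i) | (e | ⟨l, j⟩))
  · exact hv i rfl
  · rcases v' with i' | ((i' | i') | (e' | ⟨l', j'⟩))
    · exact hv' i' rfl
    · have hii : i' ≠ i := fun hh => hvv (by rw [hh])
      have h0 := h (fun k => if k = i then 1 else 0) 0 (fun _ => 0)
      simp only [val, if_true] at h0
      rw [if_neg hii] at h0
      exact one_ne_zero h0
    · have h0 := h (fun _ => 0) 0 (fun _ => 0)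
      simp only [val, add_zero] at h0
      exact hw i' h0.symm
    · have h0 := h (fun _ => 1) 0 (fun _ => 0)
      simp only [val, mo_zero] at h0
      exact one_ne_zero h0
    · have h0 := h (fun _ => 0) 0 (fun _ => 0)
      have h1 := h (fun _ => 0) 0 (fun _ => 1)
      simp only [val] at h0 h1
      exact one_ne_zero (α := ℂ) (by linear_combination h0 - h1)
  · rcases v' with i' | ((i' | i') | (e' | ⟨l', j'⟩))
    · exact hv' i' rfl
    · have h0 := h (fun _ => 0) 0 (fun _ => 0)
      simp only [val, add_zero] at h0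
      exact hw i h0
    · have h0 := h (fun _ => 0) 0 (fun _ => 0)
      simp only [val, add_zero] at h0
      exact hvv (by rw [hinj h0])
    · have h0 := h (fun _ => 0) 0 (fun _ => 0)
      simp only [val, mo_zero, add_zero] at h0
      exact hw i h0
    · have h0 := h (fun _ => 0) 0 (fun _ => 0)
      have h1 := h (fun _ => 0) 0 (fun _ => 1)
      simp only [val] at h0 h1
      exact one_ne_zero (α := ℂ) (by linear_combination h0 - h1)
  · rcases v' with i' | ((i' | i') | (e' | ⟨l', j'⟩))
    · exact hv' i' rfl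
    · have h0 := h (fun _ => 1) 0 (fun _ => 0)
      simp only [val, mo_zero] at h0
      exact one_ne_zero h0.symm
    · have h0 := h (fun _ => 0) 0 (fun _ => 0)
      simp only [val, mo_zero, add_zero] at h0
      exact hw i' h0.symm
    · exact hmo e e' (fun hh => hvv (by rw [hh])) rfl rfl
    · have h0 := h (fun _ => 0) 0 (fun _ => 0)
      have h1 := h (fun _ => 0) 0 (fun _ => 1)
      simp only [val] at h0 h1
      exact one_ne_zero (α := ℂ) (by linear_combination h0 - h1)
  · rcases v' with i' | ((i' | i') | (e' | ⟨l', j'⟩))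
    · exact hv' i' rfl
    · have h0 := h (fun _ => 0) 0 (fun _ => 0)
      have h1 := h (fun _ => 0) 0 (fun _ => 1)
      simp only [val] at h0 h1
      exact one_ne_zero (α := ℂ) (by linear_combination h1 - h0)
    · have h0 := h (fun _ => 0) 0 (fun _ => 0)
      have h1 := h (fun _ => 0) 0 (fun _ => 1)
      simp only [val] at h0 h1
      exact one_ne_zero (α := ℂ) (by linear_combination h1 - h0)
    · have h0 := h (fun _ => 0) 0 (fun _ => 0)
      have h1 := h (fun _ => 0) 0 (fun _ => 1)
      simp only [val] at h0 h1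
      exact one_ne_zero (α := ℂ) (by linear_combination h1 - h0)
    · by_cases hl : l' = l
      · subst hl
        exact hps l' j j' (fun hh => hvv (by rw [hh])) rfl rfl
      · have h0 := h (fun _ => 0) 0 (fun _ => 0)
        have h1 := h (fun _ => 0) 0 (fun k => if k = l then 1 else 0)
        simp only [val, if_true] at h0 h1
        rw [if_neg hl] at h1
        exact one_ne_zero (α := ℂ) (by linear_combination h1 - h0)

end Dist

section Main

open MvPolynomial

theorem main : S_YN := by
  intro hNI hCMA _hALG hEQV ι E _ _ _ _ D r ε M w lam μ nu K hwK hind hCM hIso hps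
  have hw0 : ∀ i, w i ≠ 0 := fun i h => hCM i (by rw [h]; exact hCMA.2)
  have hinj : Function.Injective w := by
    intro i j hij
    by_contra hne
    apply hIso i j hne
    rw [hij]
    exact hEQV.1 _
  let wK : ι → K := fun i => ⟨w i, hwK i⟩
  let pv : Nd ι E D r → MvPolynomial (Option ι ⊕ E) K :=
    val ε M (fun i => C (wK i)) (fun i => X (Sum.inl (some i))) (X (Sum.inl none))
      (fun l => X (Sum.inr l))
  have hU : ∀ (A : Type) [CommRing A] [Algebra K A] (lam' : ι → A) (mu' : A) (nu' : E → A)
      (v : Nd ι E D r), aeval (Sum.elim (fun o : Option ι => o.elim mu' lam') nu') (pv v) =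
        val ε M (fun i => algebraMap K A (wK i)) lam' mu' nu' v := by
    intro A _ _ lam' mu' nu' v
    have h1 := val_map ((aeval (Sum.elim (fun o : Option ι => o.elim mu' lam') nu') :
      MvPolynomial (Option ι ⊕ E) K →ₐ[K] A) : MvPolynomial (Option ι ⊕ E) K →+* A) ε M
      (fun i => C (wK i)) (fun i => X (Sum.inl (some i))) (X (Sum.inl none))
      (fun l => X (Sum.inr l)) v
    simp only [RingHom.coe_coe, aeval_C, aeval_X, Sum.elim_inl, Sum.elim_inr, Option.elim_some,
      Option.elim_none] at h1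
    exact h1
  have ht : ∀ v, aeval (Sum.elim (fun o : Option ι => o.elim μ lam) nu) (pv v) =
      val ε M w lam μ nu v := fun v => hU ℂ lam μ nu v
  have hnc : ∀ v, (∀ i, v ≠ Sum.inl i) →
      pv v ∉ Set.range (C : K → MvPolynomial (Option ι ⊕ E) K) := by
    rintro v hv ⟨c, hc⟩
    apply nonconst ε M w hw0 v hv (c : ℂ)
    intro lam' mu' nu'
    have h1 := hU ℂ lam' mu' nu' v
    rw [← hc, aeval_C] at h1
    exact h1.symm
  have hne : ∀ v v', v ≠ v' → (∀ i, v ≠ Sum.inl i) → (∀ i, v' ≠ Sum.inl i) →
      pv v ≠ pv v' := by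
    intro v v' hvv hv hv' heq
    have h : ∀ (A : Type) [CommRing A] [Algebra K A] (lam' : ι → A) (mu' : A) (nu' : E → A),
        val ε M (fun i => algebraMap K A (wK i)) lam' mu' nu' v =
        val ε M (fun i => algebraMap K A (wK i)) lam' mu' nu' v' := by
      intro A _ _ lam' mu' nu'
      rw [← hU, ← hU, heq]
    refine distinct ε M w hw0 hinj v v' hvv hv hv' ?_ ?_ (h ℂ)
    · rintro e e' hee rfl rfl
      apply hee
      apply mo_inj w hw0 e e'
      intro lam' mu'
      exact h (Polynomial ℂ) lam' mu' (fun _ => 0)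
    · rintro l j j' hjj rfl rfl
      apply hjj
      have h1 := h ℂ lam μ nu
      exact hps l (add_left_cancel h1)
  have htr : ∀ v, (∀ i, v ≠ Sum.inl i) → Transcendental Qb (val ε M w lam μ nu v) := by
    intro v hv
    have h1 : Transcendental K (pv v) := trans_of_notMem _ (hnc v hv)
    have h2 : Transcendental K (val ε M w lam μ nu v) := by
      rw [← ht v]
      intro h3
      exact h1 ((isAlgebraic_algHom_iff _ hind).1 h3)
    intro h3
    exact h2 (IsAlgebraic.tower_top K h3)
  refine ⟨?_, ?_, htr⟩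
  · intro v v' hvv
    by_cases hv : ∃ i, v = Sum.inl i
    · obtain ⟨i, rfl⟩ := hv
      by_cases hv' : ∃ i', v' = Sum.inl i'
      · obtain ⟨i', rfl⟩ := hv'
        exact hIso i i' (fun hh => hvv (by rw [hh]))
      · rw [not_exists] at hv'
        rw [← ht, ← ht]
        apply hNI K (Option ι ⊕ E) _ hind
        · intro heq
          apply hnc v' hv'
          rw [← heq]
          exact ⟨wK i, rfl⟩
        · right
          exact hnc v' hv'
    · rw [not_exists] at hv
      rw [← ht, ← ht]
      by_cases hv' : ∃ i', v' = Sum.inl i'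
      · obtain ⟨i', rfl⟩ := hv'
        apply hNI K (Option ι ⊕ E) _ hind
        · intro heq
          apply hnc v hv
          rw [heq]
          exact ⟨wK i', rfl⟩
        · left
          exact hnc v hv
      · rw [not_exists] at hv'
        apply hNI K (Option ι ⊕ E) _ hind
        · exact hne v v' hvv hv hv'
        · left
          exact hnc v hv
  · intro v
    by_cases hv : ∃ i, v = Sum.inl i
    · obtain ⟨i, rfl⟩ := hv
      exact hCM i
    · rw [not_exists] at hv
      intro hcm
      obtain ⟨c, hc⟩ := hCMA.1 _ hcm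
      apply htr v hv
      rw [← hc]
      exact isAlgebraic_algebraMap c

end Main

end Pool.Agent.W35.YP.YN
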